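import Pool.Agent.Run7.h189.DA.F8

/-!
# MP_5766af_al, S01535: piece F10 (rigidity at stage `l`)
-/

noncomputable section

set_option autoImplicit false

namespace Pool.Agent.Run7.h189.DA

open Finset Pool.Agent.Run7.h378

variable {E : Type} [Field E] [Algebra ℂ E]

theorem charZeroE (E : Type) [Field E] [Algebra ℂ E] : CharZero E :=
  charZero_of_injective_algebraMap (algebraMap ℂ E).injective

theorem charZeroH (E : Type) [Field E] [Algebra ℂ E] : CharZero (LaurentSeries E) := by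
  have := charZeroE E
  exact charZero_of_injective_ringHom (f := (eH : E →+* LaurentSeries E)) (eH (E := E)).injective

theorem main_F10 : S_rig := by
  intro hA hgen hgen1 hquad E _ _ R hK eps _ hM P₀ l S hS e C Q hQ L hL ⟨z', hz'L, hz'M, hz'K, hτz'⟩
  have := charZeroH E
  obtain ⟨FM, hFM⟩ := hM.field S.P
  obtain ⟨FK, hFK⟩ := hK.field
  have hMi : ∀ y, y ∈ Mf R eps S.P ↔ y ∈ FM := fun y => by rw [← hFM]; rfl
  have hKi : ∀ y, y ∈ (Ks : Set (LaurentSeries E)) ↔ y ∈ FK := fun y => by rw [← hFK]; rfl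
  have hfix : ∀ y ∈ (Ks : Set (LaurentSeries E)), Q.τ y = y := hK.fixed _ _ Q.adm
  have hsub : S.P ⊆ S.P ∪ Set.range Q.a ∪ {Q.f} := fun c hc => Or.inl (Or.inl hc)
  have hMKL : ∀ y, y ∈ Mf R eps S.P → y ∈ (Ks : Set (LaurentSeries E)) → y ∈ L :=
    fun y hy hyK => hL y (hM.mono _ _ hsub hy) hyK
  have hcL : ∀ c, c ∈ S.P ∪ Set.range Q.a ∪ {Q.f} → cH c ∈ L := fun c hc =>
    hL _ (hM.c_mem _ c hc) (hK.c_mem c)
  -- the field `Ω`
  obtain ⟨Ω, hΩ⟩ := hA.field _ (Mf R eps S.P ∪ Q.τ '' Mf R eps S.P)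
  have hΩi : ∀ y, y ∈ Ω ↔ y ∈ acl (Mf R eps S.P ∪ Q.τ '' Mf R eps S.P) := fun y => by
    rw [← hΩ]; rfl
  have hMΩ : ∀ y, y ∈ Mf R eps S.P → y ∈ Ω := fun y hy => (hΩi y).2 (hA.sub _ _ (Or.inl hy))
  have hτΩ : ∀ y, y ∈ Mf R eps S.P → Q.τ y ∈ Ω := fun y hy =>
    (hΩi _).2 (hA.sub _ _ (Or.inr ⟨y, hy, rfl⟩))
  -- everything is algebraic over `L ∩ Ω`
  have hbase : ((Mf R eps S.P ∩ Ks) ∪ {z'}) ∪ {Q.τ z'} ⊆ (L : Set (LaurentSeries E)) ∩ Ω := by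
    rintro u ((⟨hu, hu'⟩ | hu) | hu)
    · exact ⟨hMKL u hu hu', hMΩ u hu⟩
    · rw [Set.mem_singleton_iff] at hu
      rw [hu]
      exact ⟨hz'L, hMΩ _ hz'M⟩
    · rw [Set.mem_singleton_iff] at hu
      rw [hu]
      exact ⟨hτz', hτΩ _ hz'M⟩
  have halg : ∀ y, y ∈ Ω → y ∈ acl ((L : Set (LaurentSeries E)) ∩ (Ω : Set _)) := by
    intro y hy
    have hy' := (hΩi y).1 hy
    refine acl_le hA ?_ hy'
    rintro u (hu | ⟨v, hv, rfl⟩)
    · refine hA.mono _ _ _ ?_ (hM.inter S.P z' u hz'M hz'K hu)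
      exact Set.subset_union_left.trans hbase
    · have h1 := hA.map _ Q.τ _ _ (hM.inter S.P z' v hz'M hz'K hv)
      refine hA.mono _ _ _ ?_ h1
      rintro _ ⟨u, (⟨hu, hu'⟩ | hu), rfl⟩
      · apply hbase
        left; left
        rw [hfix u hu']
        exact ⟨hu, hu'⟩
      · apply hbase
        right
        rw [Set.mem_singleton_iff] at hu
        rw [hu]
        rfl
  -- the terms
  have h2M : (2 : LaurentSeries E) ∈ FM := by exact_mod_cast natCast_mem FM 2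
  have hY : ∀ i, C.Y i ∈ FM := fun i => (hMi _).1 (C.Y_mem i).1
  have hAB : ∀ j, Q.A j ∈ FM ∧ Q.B j ∈ FM := by
    intro j
    rcases Q.AB j with ⟨h, h'⟩ | ⟨i, h, h'⟩ | ⟨i, h, h'⟩
    · rw [h, h']
      exact ⟨FM.div_mem FM.one_mem h2M, FM.one_mem⟩
    · rw [h, h']
      exact ⟨FM.div_mem (hY i) h2M, hY i⟩
    · rw [h, h']
      exact ⟨hY i, FM.one_mem⟩
  have hm : C.m ∈ FM := (hMi _).1 C.m_mem.1
  have hz : zl R S.g l ∈ FM := (hMi _).1 hS.z_mem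
  have hs2 : sH ^ 2 ∈ FM := (hMi _).1 (hM.s_mem S.P)
  have hFΩ : ∀ y, y ∈ FM → y ∈ Ω := fun y hy => hMΩ y ((hMi y).2 hy)
  have hFτ : ∀ y, y ∈ FM → Q.τ y ∈ Ω := fun y hy => hτΩ y ((hMi y).2 hy)
  set Bf : Fin Q.k → LaurentSeries E := fun j =>
    C.m * Q.τ C.m * (Q.A j * Q.τ (Q.B j) + Q.B j * Q.τ (Q.A j)) with hBf
  set Af : LaurentSeries E :=
    C.m * Q.τ C.m * ((sH ^ (2 * Q.N))⁻¹ * (zl R S.g l + Q.τ (zl R S.g l))) with hAf
  have hmm : C.m * Q.τ C.m ∈ Ω := Ω.mul_mem (hFΩ _ hm) (hFτ _ hm)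
  have hBΩ : ∀ j, Bf j ∈ Ω := fun j =>
    Ω.mul_mem hmm (Ω.add_mem (Ω.mul_mem (hFΩ _ (hAB j).1) (hFτ _ (hAB j).2))
      (Ω.mul_mem (hFΩ _ (hAB j).2) (hFτ _ (hAB j).1)))
  have hAΩ : Af ∈ Ω := by
    refine Ω.mul_mem hmm (Ω.mul_mem (Ω.inv_mem ?_) (Ω.add_mem (hFΩ _ hz) (hFτ _ hz)))
    rw [pow_mul]
    exact hFΩ _ (FM.pow_mem hs2 _)
  have hsum : Af + ∑ j, cH (Q.a j) * Bf j = cH Q.f := by
    have h1 : ∑ j, cH (Q.a j) * Bf j = C.m * Q.τ C.m *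
        ∑ j, cH (Q.a j) * (Q.A j * Q.τ (Q.B j) + Q.B j * Q.τ (Q.A j)) := by
      rw [Finset.mul_sum]
      refine Finset.sum_congr rfl fun j _ => ?_
      simp only [hBf]
      ring
    rw [Q.rel, h1, hAf, ← mul_add]
  have hB := hgen hA hgen1 (LaurentSeries E) Ω L Q.k (fun j => cH (Q.a j)) Bf Af
    (by
      intro j h
      apply hQ.gen j
      refine acl_le hA ?_ h
      rintro u (hu | ⟨i, hi, rfl⟩)
      · exact hA.mono _ _ _ Set.subset_union_left ((hΩi u).1 hu)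
      · exact hA.sub _ _ (Or.inr ⟨i, hi, rfl⟩))
    hAΩ hBΩ (halg _ hAΩ) (fun j => halg _ (hBΩ j))
    (fun j => hcL _ (Or.inl (Or.inr ⟨j, rfl⟩)))
    (by rw [hsum]; exact hcL _ (Or.inr rfl))
  have hτ2 : Q.τ (2 : LaurentSeries E) = 2 := by
    rw [show (2 : LaurentSeries E) = ((2 : ℕ) : LaurentSeries E) by norm_num, map_natCast]
  have hmL : C.m * Q.τ C.m ∈ L := by
    obtain ⟨j, h, h'⟩ := Q.AB1
    have := hB j
    simp only [hBf, h, h', map_one, map_div₀, hτ2] at this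
    have h3 : C.m * Q.τ C.m * ((1 : LaurentSeries E) / 2 * 1 + 1 * (1 / 2)) =
        C.m * Q.τ C.m := by
      have : (1 : LaurentSeries E) / 2 * 1 + 1 * (1 / 2) = 1 := by norm_num
      rw [this, mul_one]
    rwa [h3] at this
  have hmne : C.m * Q.τ C.m ≠ 0 :=
    mul_ne_zero C.m_ne (by rw [Ne, EmbeddingLike.map_eq_zero_iff]; exact C.m_ne)
  have hcancel : ∀ y, C.m * Q.τ C.m * y ∈ L → y ∈ L := by
    intro y hy
    have := L.mul_mem (L.inv_mem hmL) hy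
    rwa [← mul_assoc, inv_mul_cancel₀ hmne, one_mul] at this
  intro i
  by_cases hYK : C.Y i ∈ (Ks : Set (LaurentSeries E))
  · exact hMKL _ (C.Y_mem i).1 hYK
  have hprod : C.Y i * Q.τ (C.Y i) ∈ L := by
    obtain ⟨j, h, h'⟩ := Q.AB2 i
    have := hB j
    simp only [hBf, h, h', map_div₀, hτ2] at this
    apply hcancel
    have h3 : C.Y i / 2 * Q.τ (C.Y i) + C.Y i * (Q.τ (C.Y i) / 2) = C.Y i * Q.τ (C.Y i) := by
      ring
    rwa [h3] at this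
  have hadd : C.Y i + Q.τ (C.Y i) ∈ L := by
    obtain ⟨j, h, h'⟩ := Q.AB3 i
    have := hB j
    simp only [hBf, h, h', map_one, mul_one, one_mul] at this
    exact hcancel _ this
  refine hquad _ L ((Mf R eps S.P ∩ Ks) ∪ {z'}) (C.Y i) (Q.τ (C.Y i)) ?_ hadd hprod
    (hM.inter S.P z' _ hz'M hz'K (C.Y_mem i).1) ?_
  · exact (Set.subset_union_left.trans hbase).trans Set.inter_subset_left
  · intro h
    apply hQ.free _ (C.Y_mem i).1 hYK
    refine hA.mono _ _ _ ?_ h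
    rintro u (⟨hu, -⟩ | hu)
    · exact hu
    · rw [Set.mem_singleton_iff] at hu
      rw [hu]
      exact hz'M

end Pool.Agent.Run7.h189.DA
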