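import Pool.Agent.Run7.h378.IfaceF

/-!
# MP_5766af_al, S01535: piece F11 (merging at stage `l`)
-/

noncomputable section

set_option autoImplicit false

namespace Pool.Agent.Run7.h189.DA

open Finset Pool.Agent.Run7.h378

theorem int_mono {K : Type} [Field K] {R1 R2 : Subring K} (h : R1 ≤ R2) {x : K}
    (hx : IsIntegral R1 x) : IsIntegral R2 x :=
  hx.map_of_comp_eq (Subring.inclusion h) (RingHom.id K) rfl

theorem int_map {K : Type} [Field K] {R1 R2 : Subring K} (τ : K →+* K)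
    (h : ∀ x ∈ R1, τ x ∈ R2) {x : K} (hx : IsIntegral R1 x) : IsIntegral R2 (τ x) :=
  hx.map_of_comp_eq ((τ.comp R1.subtype).codRestrict R2 (fun x => h x.1 x.2)) τ rfl

theorem int_mem {K : Type} [Field K] {R1 : Subring K} {x : K} (h : x ∈ R1) : IsIntegral R1 x :=
  isIntegral_algebraMap (R := R1) (x := (⟨x, h⟩ : R1))

variable {E : Type} [Field E] [Algebra ℂ E]

theorem main_F11 : S_mer := by
  intro hA E _ _ R hK eps _ hM P₀ l S hS e C Q he heK
  obtain ⟨FM, hFM⟩ := hM.field S.P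
  obtain ⟨FM', hFM'⟩ := hM.field (S.P ∪ Set.range Q.a ∪ {Q.f})
  obtain ⟨FK, hFK⟩ := hK.field
  have hMi : ∀ y, y ∈ Mf R eps S.P ↔ y ∈ FM := fun y => by rw [← hFM]; rfl
  have hMi' : ∀ y, y ∈ Mf R eps (S.P ∪ Set.range Q.a ∪ {Q.f}) ↔ y ∈ FM' := fun y => by
    rw [← hFM']; rfl
  have hKi : ∀ y, y ∈ (Ks : Set (LaurentSeries E)) ↔ y ∈ FK := fun y => by rw [← hFK]; rfl
  have hfix : ∀ y ∈ (Ks : Set (LaurentSeries E)), Q.τ y = y := hK.fixed _ _ Q.adm
  have hsub : S.P ⊆ S.P ∪ Set.range Q.a ∪ {Q.f} := fun c hc => Or.inl (Or.inl hc)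
  set R0 := Subring.closure ((Mf R eps (S.P ∪ Set.range Q.a ∪ {Q.f}) ∩ Ks) ∪
        {y | ∃ i, y = Q.τ^[i] e}) with hR0
  have hR1 : ∀ y, y ∈ FM' → y ∈ FK → y ∈ R0 := fun y hy hy' =>
    Subring.subset_closure (Or.inl ⟨(hMi' y).2 hy, (hKi y).2 hy'⟩)
  have hR2 : ∀ i, Q.τ^[i] e ∈ R0 := fun i => Subring.subset_closure (Or.inr ⟨i, rfl⟩)
  have hMM : ∀ y, y ∈ FM → y ∈ FM' := fun y hy =>
    (hMi' y).1 (hM.mono _ _ hsub ((hMi y).2 hy))
  have hR3 : ∀ y, y ∈ FM → y ∈ FK → y ∈ R0 := fun y hy => hR1 y (hMM y hy)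
  have hτ2 : (Q.τ : LaurentSeries E → LaurentSeries E)^[2] = S.g := by
    funext h
    exact Q.sq h
  have hg : ∀ i, S.g^[i] e = Q.τ^[2 * i] e := fun i => by
    rw [Function.iterate_mul, hτ2]
  have he0 : e ≠ 0 := by
    rintro rfl
    exact heK ((hKi 0).2 FK.zero_mem)
  have hgne : ∀ i, S.g^[i] e ≠ 0 := by
    intro i
    induction i with
    | zero => exact he0
    | succ i ih =>
      rw [Function.iterate_succ_apply', Ne, EmbeddingLike.map_eq_zero_iff]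
      exact ih
  -- the norm
  set N := Nm S.g (2 ^ l) e with hN
  have hN0 : N ≠ 0 := Finset.prod_ne_zero_iff.2 fun i _ => hgne i
  have hNR : N ∈ R0 := Subring.prod_mem _ fun i _ => by rw [hg]; exact hR2 _
  have hτN : Q.τ N ∈ R0 := by
    rw [hN, Nm, map_prod]
    refine Subring.prod_mem _ fun i _ => ?_
    rw [hg, ← Function.iterate_succ_apply' (⇑Q.τ)]
    exact hR2 _
  have hinv : e⁻¹ = N⁻¹ * ∏ i ∈ range (2 ^ l - 1), S.g^[i + 1] e := by
    have h1 : N = (∏ i ∈ range (2 ^ l - 1), S.g^[i + 1] e) * e := by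
      have h2 : 2 ^ l = (2 ^ l - 1) + 1 := (Nat.sub_add_cancel Nat.one_le_two_pow).symm
      rw [hN, Nm, h2, Finset.prod_range_succ']
      simp
    have h3 : (∏ i ∈ range (2 ^ l - 1), S.g^[i + 1] e) ≠ 0 :=
      Finset.prod_ne_zero_iff.2 fun i _ => hgne _
    rw [h1]
    field_simp
  have hfin : IsIntegral R0 N⁻¹ → IsIntegral R0 e⁻¹ := by
    intro h
    rw [hinv]
    refine h.mul (int_mem ?_)
    exact Subring.prod_mem _ fun i _ => by rw [hg]; exact hR2 _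
  apply hfin
  by_cases hNK : N ∈ (Ks : Set (LaurentSeries E))
  · apply int_mem
    exact hR3 _ (FM.inv_mem ((hMi _).1 (hS.nm_mem e he))) (FK.inv_mem ((hKi _).1 hNK))
  have hw : C.w = N := C.w_eq hNK
  have hle : Subring.closure ((Mf R eps S.P ∩ Ks) ∪ {C.w}) ≤ R0 := by
    rw [Subring.closure_le]
    rintro y (⟨hy, hy'⟩ | hy)
    · exact hR3 y ((hMi y).1 hy) ((hKi y).1 hy')
    · rw [Set.mem_singleton_iff] at hy
      rw [hy, hw]
      exact hNR
  have hleτ : ∀ y ∈ Subring.closure ((Mf R eps S.P ∩ Ks) ∪ {C.w}),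
      (Q.τ : LaurentSeries E →+* LaurentSeries E) y ∈ R0 := by
    have : Subring.closure ((Mf R eps S.P ∩ Ks) ∪ {C.w}) ≤
        R0.comap (Q.τ : LaurentSeries E →+* LaurentSeries E) := by
      rw [Subring.closure_le]
      rintro y (⟨hy, hy'⟩ | hy)
      · change Q.τ y ∈ R0
        rw [hfix y hy']
        exact hR3 y ((hMi y).1 hy) ((hKi y).1 hy')
      · rw [Set.mem_singleton_iff] at hy
        change Q.τ y ∈ R0
        rw [hy, hw]
        exact hτN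
    exact this
  have hlift : ∀ y, IsIntegral (Subring.closure ((Mf R eps S.P ∩ Ks) ∪ {C.w})) y →
      IsIntegral R0 y ∧ IsIntegral R0 (Q.τ y) := fun y hy =>
    ⟨int_mono hle hy, int_map (Q.τ : LaurentSeries E →+* LaurentSeries E) hleτ hy⟩
  have h12 : IsIntegral (Subring.closure ((Mf R eps S.P ∩ Ks) ∪ {C.w}))
      (1 / 2 : LaurentSeries E) := by
    apply int_mem
    apply Subring.subset_closure
    left
    constructor
    · rw [hMi]
      exact FM.div_mem FM.one_mem (by exact_mod_cast natCast_mem FM 2)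
    · rw [hKi]
      exact FK.div_mem FK.one_mem (by exact_mod_cast natCast_mem FK 2)
  have hAB : ∀ j, IsIntegral (Subring.closure ((Mf R eps S.P ∩ Ks) ∪ {C.w}))
      (C.m * Q.A j / C.w) ∧ IsIntegral (Subring.closure ((Mf R eps S.P ∩ Ks) ∪ {C.w}))
      (C.m * Q.B j / C.w) := by
    intro j
    rcases Q.AB j with ⟨h, h'⟩ | ⟨i, h, h'⟩ | ⟨i, h, h'⟩
    · rw [h, h']
      constructor
      · rw [show C.m * (1 / 2) / C.w = (1 / 2) * (C.m / C.w) by ring]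
        exact h12.mul C.int_m
      · rw [mul_one]
        exact C.int_m
    · rw [h, h']
      constructor
      · rw [show C.m * (C.Y i / 2) / C.w = (1 / 2) * (C.m * C.Y i / C.w) by ring]
        exact h12.mul (C.int_mY i)
      · exact C.int_mY i
    · rw [h, h', mul_one]
      exact ⟨C.int_mY i, C.int_m⟩
  obtain ⟨i0, hi0⟩ := C.z_Y
  have hz : IsIntegral (Subring.closure ((Mf R eps S.P ∩ Ks) ∪ {C.w}))
      (C.m * zl R S.g l / C.w) := by
    rw [← hi0]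
    exact C.int_mY i0
  have hs : (sH ^ (2 * Q.N) : LaurentSeries E)⁻¹ ∈ R0 := by
    rw [pow_mul]
    apply hR3
    · exact FM.inv_mem (FM.pow_mem ((hMi _).1 (hM.s_mem S.P)) _)
    · exact FK.inv_mem (FK.pow_mem (FK.pow_mem ((hKi _).1 hK.s_mem) _) _)
  have hcR : ∀ c, c ∈ S.P ∪ Set.range Q.a ∪ {Q.f} → cH c ∈ R0 := fun c hc =>
    hR1 _ ((hMi' _).1 (hM.c_mem _ c hc)) ((hKi _).1 (hK.c_mem c))
  have hw0 : C.w ≠ 0 := by rw [hw]; exact hN0
  have hτw0 : Q.τ C.w ≠ 0 := by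
    rw [Ne, EmbeddingLike.map_eq_zero_iff]
    exact hw0
  set Ξ : LaurentSeries E := (sH ^ (2 * Q.N))⁻¹ *
      ((C.m * zl R S.g l / C.w) * Q.τ (C.m / C.w) + (C.m / C.w) * Q.τ (C.m * zl R S.g l / C.w)) +
    ∑ j, cH (Q.a j) * ((C.m * Q.A j / C.w) * Q.τ (C.m * Q.B j / C.w) +
      (C.m * Q.B j / C.w) * Q.τ (C.m * Q.A j / C.w)) with hΞ
  have hΞI : IsIntegral R0 Ξ := by
    rw [hΞ]
    refine IsIntegral.add ((int_mem hs).mul (IsIntegral.add ?_ ?_))
      (IsIntegral.sum _ fun j _ => (int_mem (hcR _ (Or.inl (Or.inr ⟨j, rfl⟩)))).mul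
        (IsIntegral.add ?_ ?_))
    · exact (hlift _ hz).1.mul (hlift _ C.int_m).2
    · exact (hlift _ C.int_m).1.mul (hlift _ hz).2
    · exact (hlift _ (hAB j).1).1.mul (hlift _ (hAB j).2).2
    · exact (hlift _ (hAB j).2).1.mul (hlift _ (hAB j).1).2
  have hterm : ∀ a b : LaurentSeries E, C.w * Q.τ C.w * ((C.m * a / C.w) *
      Q.τ (C.m * b / C.w)) = C.m * Q.τ C.m * (a * Q.τ b) := by
    intro a b
    rw [map_div₀, map_mul]
    field_simp
  have hfeq : cH Q.f = C.w * Q.τ C.w * Ξ := by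
    rw [Q.rel, hΞ]
    have t1 := hterm (zl R S.g l) 1
    have t2 := hterm 1 (zl R S.g l)
    rw [mul_one, map_one, mul_one] at t1
    rw [mul_one, one_mul] at t2
    have t3 : C.w * Q.τ C.w * ((sH ^ (2 * Q.N))⁻¹ *
        ((C.m * zl R S.g l / C.w) * Q.τ (C.m / C.w) +
          (C.m / C.w) * Q.τ (C.m * zl R S.g l / C.w))) =
        C.m * Q.τ C.m * ((sH ^ (2 * Q.N))⁻¹ * (zl R S.g l + Q.τ (zl R S.g l))) := by
      calc C.w * Q.τ C.w * ((sH ^ (2 * Q.N))⁻¹ *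
          ((C.m * zl R S.g l / C.w) * Q.τ (C.m / C.w) +
            (C.m / C.w) * Q.τ (C.m * zl R S.g l / C.w)))
          = (sH ^ (2 * Q.N))⁻¹ * (C.w * Q.τ C.w * ((C.m * zl R S.g l / C.w) * Q.τ (C.m / C.w)) +
            C.w * Q.τ C.w * ((C.m / C.w) * Q.τ (C.m * zl R S.g l / C.w))) := by ring
        _ = _ := by
          rw [t1, t2]
          ring
    have t4 : C.w * Q.τ C.w * ∑ j, cH (Q.a j) * ((C.m * Q.A j / C.w) *
          Q.τ (C.m * Q.B j / C.w) + (C.m * Q.B j / C.w) * Q.τ (C.m * Q.A j / C.w)) =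
        C.m * Q.τ C.m * ∑ j, cH (Q.a j) * (Q.A j * Q.τ (Q.B j) + Q.B j * Q.τ (Q.A j)) := by
      rw [Finset.mul_sum, Finset.mul_sum]
      refine Finset.sum_congr rfl fun j _ => ?_
      have t5 := hterm (Q.A j) (Q.B j)
      have t6 := hterm (Q.B j) (Q.A j)
      calc C.w * Q.τ C.w * (cH (Q.a j) * ((C.m * Q.A j / C.w) * Q.τ (C.m * Q.B j / C.w) +
            (C.m * Q.B j / C.w) * Q.τ (C.m * Q.A j / C.w)))
          = cH (Q.a j) * (C.w * Q.τ C.w * ((C.m * Q.A j / C.w) * Q.τ (C.m * Q.B j / C.w)) +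
            C.w * Q.τ C.w * ((C.m * Q.B j / C.w) * Q.τ (C.m * Q.A j / C.w))) := by ring
        _ = _ := by
          rw [t5, t6]
          ring
    rw [mul_add (C.w * Q.τ C.w), t3, t4, ← mul_add]
  have hf0 : cH (E := E) Q.f ≠ 0 := by
    rw [Ne, map_eq_zero]
    exact Q.f_ne
  have hΞ0 : Ξ ≠ 0 := by
    intro h
    rw [h, mul_zero] at hfeq
    exact hf0 hfeq
  have hwinv : N⁻¹ = (cH Q.f)⁻¹ * Q.τ C.w * Ξ := by
    rw [← hw, hfeq]
    field_simp
  rw [hwinv]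
  refine IsIntegral.mul (IsIntegral.mul (int_mem ?_) (int_mem ?_)) hΞI
  · exact hR1 _ (FM'.inv_mem ((hMi' _).1 (hM.c_mem _ Q.f (Or.inr rfl))))
      (FK.inv_mem ((hKi _).1 (hK.c_mem Q.f)))
  · rw [hw]
    exact hτN

end Pool.Agent.Run7.h189.DA
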