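import Pool.Agent.Run7.h189.DA.F8

/-!
# MP_5766af_al, S01535: piece F13 (assembly of one step)
-/

noncomputable section

set_option autoImplicit false

namespace Pool.Agent.Run7.h189.DA

open Finset Pool.Agent.Run7.h378

theorem main_F13 : S_step := by
  intro hA hsol hMf hSt hcho hrel hfacts hgen hgen1 hquad hrig hmer hcoc E _ _ R hK eps heps
    P₀ hP l S e he
  have hM := hMf hA E R hK eps heps
  have hS := hSt hA E R hK eps heps hM P₀ l S
  obtain ⟨C⟩ := hcho hA E R hK eps heps hM P₀ l S hS e he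
  obtain ⟨Q⟩ := hrel hA hsol E R hK eps heps hM P₀ l S hS e C
  have hQ := hfacts hA E R hK eps heps hM P₀ l S hS e C Q
  have hsub : S.P ⊆ S.P ∪ Set.range Q.a ∪ {Q.f} := fun c hc => Or.inl (Or.inl hc)
  obtain ⟨α, hα, hvα, hτc, hvc, hrc⟩ := hcoc hA E R hK eps heps hM P₀ hP l S hS Q.τ
    (S.P ∪ Set.range Q.a ∪ {Q.f}) hsub Q.adm Q.sq Q.comm hQ.τx
  have hτ2 : (Q.τ : LaurentSeries E → LaurentSeries E)^[2] = S.g := by
    funext h
    exact Q.sq h
  have hgM : ∀ h, h ∈ Mf R eps (S.P ∪ Set.range Q.a ∪ {Q.f}) →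
      S.g h ∈ Mf R eps (S.P ∪ Set.range Q.a ∪ {Q.f}) := fun h =>
    (hM.map _ _ (R.σ l) S.g subset_rfl S.adm S.comm
      (hA.mono _ _ _ (gens_mono R hsub) S.gx) h).1
  have hgi : ∀ i, S.g^[i] α ∈ Mf R eps (S.P ∪ Set.range Q.a ∪ {Q.f}) := by
    intro i
    induction i with
    | zero => exact hα
    | succ i ih =>
      rw [Function.iterate_succ_apply']
      exact hgM _ ih
  obtain ⟨FM', hFM'⟩ := hM.field (S.P ∪ Set.range Q.a ∪ {Q.f})
  have hMi' : ∀ y, y ∈ Mf R eps (S.P ∪ Set.range Q.a ∪ {Q.f}) ↔ y ∈ FM' := fun y => by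
    rw [← hFM']; rfl
  let S' : St R eps P₀ (l + 1) :=
    { P := S.P ∪ Set.range Q.a ∪ {Q.f}
      cnt := (S.cnt.union (Set.countable_range _)).union (Set.countable_singleton _)
      sub := S.sub.trans hsub
      g := Q.τ
      adm := Q.adm
      ord := fun h => by
        rw [pow_succ', Function.iterate_mul, hτ2]
        exact S.ord h
      comm := Q.comm
      gx := hQ.τx
      c := Nm S.g (2 ^ l) α * S.c
      c_mem := by
        rw [hMi']
        refine FM'.mul_mem (FM'.prod_mem fun i _ => (hMi' _).1 (hgi i))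
          ((hMi' _).1 (hM.mono _ _ hsub S.c_mem))
      g_c := hτc
      v_c := hvc
      res_c := hrc }
  refine ⟨S', α, hsub, Q.sq, hα, hvα, rfl, hQ.free, ?_, ?_⟩
  · intro L hL hz'
    have hY := hrig hA hgen hgen1 hquad E R hK eps heps hM P₀ l S hS e C Q hQ L hL hz'
    constructor
    · obtain ⟨i, hi⟩ := C.z_Y
      rw [← hi]
      exact hY i
    · intro j hj hej
      refine Subfield.closure_mono ?_ (C.cap j hj hej)
      apply Set.union_subset_union_left
      rintro _ ⟨i, rfl⟩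
      exact hY i
  · intro heK
    exact hmer hA E R hK eps heps hM P₀ l S hS e C Q he heK

end Pool.Agent.Run7.h189.DA
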