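import Pool.Agent.Run7.h378.IfaceF

/-!
# MP_5766af_al, S01535: piece F8 (consequences of genericity)
-/

noncomputable section

set_option autoImplicit false

namespace Pool.Agent.Run7.h189.DA

open Finset Pool.Agent.Run7.h378

theorem acl_le (hA : AclFacts) {K : Type} [Field K] {S T : Set K} (h : S ⊆ acl T) :
    acl S ⊆ acl T :=
  (hA.mono K _ _ h).trans (hA.idem K T)

variable {E : Type} [Field E] [Algebra ℂ E]

theorem tau_acl (hA : AclFacts) {R : Res E} {eps : LaurentSeries E ≃+* LaurentSeries E}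
    (hM : MfFacts E R eps) {P : Set ℂ} {ρ : E ≃ₐ[ℂ] E}
    {τ : LaurentSeries E ≃+* LaurentSeries E} (hτ : Adm ρ τ) {t y : LaurentSeries E}
    (ht : t ∈ acl (gens R P)) (htK : t ∉ Ks) (hy : y ∈ acl (gens R P)) :
    τ y ∈ acl ((cH '' P) ∪ {sH} ∪ {τ t}) := by
  have h1 := hA.map _ τ _ _ (hM.inter' P t y ht htK hy)
  refine hA.mono _ _ _ ?_ h1
  rintro _ ⟨u, (⟨c, hc, rfl⟩ | hu) | hu, rfl⟩
  · left; left
    exact ⟨c, hc, (hτ.map_c c).symm⟩
  · left; right
    rw [Set.mem_singleton_iff] at hu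
    rw [hu, hτ.map_s]
    rfl
  · right
    rw [Set.mem_singleton_iff] at hu
    rw [hu]
    rfl

theorem Mf_sub_acl {R : Res E} {eps : LaurentSeries E ≃+* LaurentSeries E} {P : Set ℂ} :
    Mf R eps P ⊆ acl (gens R P) := fun _ h => h.2

theorem gens_mono (R : Res E) {P P' : Set ℂ} (h : P ⊆ P') : gens R P ⊆ gens R P' :=
  Set.union_subset_union_left _ (Set.image_mono h)

/-- the value `f` is algebraic over the generators, the `a j` and `τ z` -/
theorem f_mem (hA : AclFacts) {R : Res E} {eps : LaurentSeries E ≃+* LaurentSeries E}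
    (hM : MfFacts E R eps) {P₀ : Set ℂ} {l : ℕ} {S : St R eps P₀ l} (hS : StFacts S)
    {e : LaurentSeries E} {C : Cho S e} (Q : Rel C) :
    cH Q.f ∈ acl (gens R (S.P ∪ Set.range Q.a) ∪ {Q.τ (zl R S.g l)}) := by
  obtain ⟨F, hF⟩ := hA.field _ (gens R (S.P ∪ Set.range Q.a) ∪ {Q.τ (zl R S.g l)})
  obtain ⟨F0, hF0⟩ := hA.field _ (gens R S.P)
  have hz : zl R S.g l ∈ acl (gens R S.P) := hS.z_mem.2
  have h1 : ∀ y, y ∈ F0 → y ∈ F := by
    intro y hy
    have hy' : y ∈ acl (gens R S.P) := by rw [← hF0]; exact hy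
    change y ∈ (F : Set (LaurentSeries E))
    rw [hF]
    exact hA.mono _ _ _ ((gens_mono R Set.subset_union_left).trans Set.subset_union_left) hy'
  have h2 : ∀ y, y ∈ F0 → Q.τ y ∈ F := by
    intro y hy
    have hy' : y ∈ acl (gens R S.P) := by rw [← hF0]; exact hy
    change Q.τ y ∈ (F : Set (LaurentSeries E))
    rw [hF]
    refine hA.mono _ _ _ ?_ (tau_acl hA hM Q.adm hz hS.z_Ks hy')
    apply Set.union_subset_union_left
    rintro u (⟨c, hc, rfl⟩ | hu)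
    · left
      exact ⟨c, Or.inl hc, rfl⟩
    · right
      left
      exact hu
  have hMf : ∀ y, y ∈ Mf R eps S.P → y ∈ F0 := by
    intro y hy
    change y ∈ (F0 : Set (LaurentSeries E))
    rw [hF0]
    exact hy.2
  have hgen : ∀ y, y ∈ gens R (S.P ∪ Set.range Q.a) → y ∈ F := by
    intro y hy
    change y ∈ (F : Set (LaurentSeries E))
    rw [hF]
    exact hA.sub _ _ (Or.inl hy)
  have hs : sH ∈ F := hgen _ (Or.inr (Or.inl rfl))
  have ha : ∀ j, cH (Q.a j) ∈ F := fun j =>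
    hgen _ (Or.inl ⟨Q.a j, Or.inr ⟨j, rfl⟩, rfl⟩)
  have hAB : ∀ j, Q.A j ∈ F0 ∧ Q.B j ∈ F0 := by
    intro j
    have h12 : (1 / 2 : LaurentSeries E) ∈ F0 :=
      F0.div_mem F0.one_mem (by exact_mod_cast natCast_mem F0 2)
    have hY : ∀ i, C.Y i ∈ F0 := fun i => hMf _ (C.Y_mem i).1
    have h22 : (2 : LaurentSeries E) ∈ F0 := by exact_mod_cast natCast_mem F0 2
    rcases Q.AB j with ⟨h, h'⟩ | ⟨i, h, h'⟩ | ⟨i, h, h'⟩
    · rw [h, h']
      exact ⟨h12, F0.one_mem⟩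
    · rw [h, h']
      exact ⟨F0.div_mem (hY i) h22, hY i⟩
    · rw [h, h']
      exact ⟨hY i, F0.one_mem⟩
  have hm : C.m ∈ F0 := hMf _ C.m_mem.1
  have hz0 : zl R S.g l ∈ F0 := hMf _ hS.z_mem
  rw [← hF]
  change cH Q.f ∈ F
  rw [Q.rel]
  refine F.mul_mem (F.mul_mem (h1 _ hm) (h2 _ hm)) (F.add_mem ?_ ?_)
  · exact F.mul_mem (F.inv_mem (F.pow_mem hs _)) (F.add_mem (h1 _ hz0) (h2 _ hz0))
  · refine F.sum_mem fun j _ => ?_
    refine F.mul_mem (ha j) (F.add_mem ?_ ?_)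
    · exact F.mul_mem (h1 _ (hAB j).1) (h2 _ (hAB j).2)
    · exact F.mul_mem (h1 _ (hAB j).2) (h2 _ (hAB j).1)

/-- `τ z` is not algebraic over the generators and the `a j` -/
theorem tz_not_mem (hA : AclFacts) {R : Res E} {eps : LaurentSeries E ≃+* LaurentSeries E}
    (hM : MfFacts E R eps) {P₀ : Set ℂ} {l : ℕ} {S : St R eps P₀ l} (hS : StFacts S)
    {e : LaurentSeries E} {C : Cho S e} (Q : Rel C) :
    Q.τ (zl R S.g l) ∉ acl (gens R (S.P ∪ Set.range Q.a)) := by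
  intro h
  apply Q.gen_f
  refine hA.trans _ _ _ ?_ (f_mem hA hM hS Q)
  rintro y rfl
  exact h

theorem main_F8 : S_facts := by
  intro hA E _ _ R _ eps _ hM P₀ l S hS e C Q
  have hz : zl R S.g l ∈ acl (gens R S.P) := hS.z_mem.2
  refine ⟨?_, ?_, ?_⟩
  · intro t ht htK h
    apply tz_not_mem hA hM hS Q
    rw [hM.acl_eq] at h
    have h1 := tau_acl hA hM Q.adm ht.2 htK hz
    have h2 : Q.τ (zl R S.g l) ∈ acl (gens R S.P) := by
      refine acl_le hA ?_ h1
      rintro u ((⟨c, hc, rfl⟩ | hu) | hu)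
      · exact hA.sub _ _ (Or.inl ⟨c, hc, rfl⟩)
      · exact hA.sub _ _ (Or.inr (Or.inl hu))
      · rw [Set.mem_singleton_iff] at hu
        rw [hu]
        exact h
    exact hA.mono _ _ _ (gens_mono R Set.subset_union_left) h2
  · have h1 := hA.exch _ _ _ _ (f_mem hA hM hS Q) Q.gen_f
    have h2 : Q.τ (zl R S.g l) ∈ acl (gens R (S.P ∪ Set.range Q.a ∪ {Q.f})) := by
      refine hA.mono _ _ _ ?_ h1
      rintro u (hu | hu)
      · exact gens_mono R Set.subset_union_left hu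
      · rw [Set.mem_singleton_iff] at hu
        rw [hu]
        exact Or.inl ⟨Q.f, Or.inr rfl, rfl⟩
    have hx : eH R.x ∈ acl (gens R S.P) := hA.sub _ _ (Or.inr (Or.inr rfl))
    refine acl_le hA ?_ (tau_acl hA hM Q.adm hz hS.z_Ks hx)
    rintro u ((⟨c, hc, rfl⟩ | hu) | hu)
    · exact hA.sub _ _ (Or.inl ⟨c, Or.inl (Or.inl hc), rfl⟩)
    · exact hA.sub _ _ (Or.inr (Or.inl hu))
    · rw [Set.mem_singleton_iff] at hu
      rw [hu]
      exact h2
  · intro j h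
    apply tz_not_mem hA hM hS Q
    have h1 : cH (Q.a j) ∈ acl (gens R (S.P ∪ {c | ∃ i, i < j ∧ c = Q.a i}) ∪
        {Q.τ (zl R S.g l)}) := by
      refine acl_le hA ?_ h
      rintro u ((hu | ⟨v, hv, rfl⟩) | ⟨i, hi, rfl⟩)
      · exact hA.mono _ _ _ ((gens_mono R Set.subset_union_left).trans Set.subset_union_left) hu.2
      · refine hA.mono _ _ _ ?_ (tau_acl hA hM Q.adm hz hS.z_Ks hv.2)
        apply Set.union_subset_union_left
        rintro u (⟨c, hc, rfl⟩ | hu)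
        · left
          exact ⟨c, Or.inl hc, rfl⟩
        · right
          left
          exact hu
      · exact hA.sub _ _ (Or.inl (Or.inl ⟨Q.a i, Or.inr ⟨i, hi, rfl⟩, rfl⟩))
    have h2 := hA.exch _ _ _ _ h1 (Q.gen_a j)
    refine hA.mono _ _ _ ?_ h2
    rintro u (hu | hu)
    · refine gens_mono R ?_ hu
      rintro c (hc | ⟨i, -, rfl⟩)
      · exact Or.inl hc
      · exact Or.inr ⟨i, rfl⟩
    · rw [Set.mem_singleton_iff] at hu
      rw [hu]
      exact Or.inl ⟨Q.a j, Or.inr ⟨j, rfl⟩, rfl⟩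

end Pool.Agent.Run7.h189.DA
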